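import Pool.Agent.Helper68.BA.Defs

/-! Module PO (polar coordinates), MP_3dd6d4_an, modes. -/

set_option autoImplicit false

noncomputable section

namespace Pool.Agent.Helper68.BA

open MeasureTheory Set Filter Topology Complex

theorem PO_norm {k : ℤ} {ψ : ℂ → ℂ} (h : HasMode k ψ) (r θ : ℝ) :
    ‖ψ ((r : ℂ) * ((Real.cos θ : ℂ) + (Real.sin θ : ℂ) * I))‖ = ‖ψ (r : ℂ)‖ := by
  have h1 : (r : ℂ) * ((Real.cos θ : ℂ) + (Real.sin θ : ℂ) * I) = cexp (θ * I) * r := by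
    rw [Complex.exp_mul_I, Complex.ofReal_cos, Complex.ofReal_sin]
    ring
  rw [h1, h θ r, norm_mul]
  have h2 : ‖cexp ((k : ℂ) * θ * I)‖ = 1 := by
    have h3 : (k : ℂ) * θ * I = ((k * θ : ℝ) : ℂ) * I := by push_cast; ring
    rw [h3, Complex.norm_exp_ofReal_mul_I]
  rw [h2, one_mul]

theorem PO_image : (fun y : ℝ => Real.exp (y / 2)) '' Set.univ = Ioi (0 : ℝ) := by
  ext r
  constructor
  · rintro ⟨y, -, rfl⟩
    exact Real.exp_pos _
  · intro hr
    refine ⟨2 * Real.log r, mem_univ _, ?_⟩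
    show Real.exp (2 * Real.log r / 2) = r
    rw [mul_div_cancel_left₀ _ (two_ne_zero), Real.exp_log hr]

theorem polar_lintegral {k : ℤ} {ψ : ℂ → ℂ} (h : HasMode k ψ) (hc : Continuous ψ)
    (p : ℝ) (hp : 0 < p) :
    ∫⁻ z, ENNReal.ofReal (‖ψ z‖ ^ p) =
      ENNReal.ofReal Real.pi * ∫⁻ y : ℝ, ENNReal.ofReal (‖prof ψ y‖ ^ p * Real.exp y) := by
  have hm : Measurable (fun r : ℝ => ENNReal.ofReal r * ENNReal.ofReal (‖ψ (r : ℂ)‖ ^ p)) := by
    have h1 : Measurable (fun r : ℝ => ‖ψ (r : ℂ)‖) :=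
      (hc.comp Complex.continuous_ofReal).norm.measurable
    exact (ENNReal.measurable_ofReal).mul (ENNReal.measurable_ofReal.comp (h1.pow_const p))
  have h1 : ∫⁻ z, ENNReal.ofReal (‖ψ z‖ ^ p) =
      ∫⁻ q in (Ioi (0 : ℝ)) ×ˢ (Ioo (-Real.pi) Real.pi),
        ENNReal.ofReal q.1 * ENNReal.ofReal (‖ψ (q.1 : ℂ)‖ ^ p) := by
    rw [← Complex.lintegral_comp_polarCoord_symm]
    refine setLIntegral_congr_fun (measurableSet_Ioi.prod measurableSet_Ioo) ?_
    intro q _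
    show ENNReal.ofReal q.1 • ENNReal.ofReal (‖ψ (Complex.polarCoord.symm q)‖ ^ p) = _
    rw [Complex.polarCoord_symm_apply, PO_norm h, smul_eq_mul]
  have h2 : ∫⁻ q in (Ioi (0 : ℝ)) ×ˢ (Ioo (-Real.pi) Real.pi),
        ENNReal.ofReal q.1 * ENNReal.ofReal (‖ψ (q.1 : ℂ)‖ ^ p) =
      ENNReal.ofReal (2 * Real.pi) *
        ∫⁻ r in Ioi (0 : ℝ), ENNReal.ofReal r * ENNReal.ofReal (‖ψ (r : ℂ)‖ ^ p) := by
    rw [Measure.volume_eq_prod, setLIntegral_prod]
    · simp only [lintegral_const, Measure.restrict_apply MeasurableSet.univ, univ_inter,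
        Real.volume_Ioo]
      rw [lintegral_mul_const _ hm, mul_comm]
      congr 2
      ring
    · exact (hm.comp measurable_fst).aemeasurable
  have h3 : ∫⁻ r in Ioi (0 : ℝ), ENNReal.ofReal r * ENNReal.ofReal (‖ψ (r : ℂ)‖ ^ p) =
      ∫⁻ y : ℝ, ENNReal.ofReal (1 / 2) * ENNReal.ofReal (‖prof ψ y‖ ^ p * Real.exp y) := by
    have hd : ∀ y ∈ (Set.univ : Set ℝ), HasDerivWithinAt (fun y : ℝ => Real.exp (y / 2))
        (Real.exp (y / 2) * (1 / 2)) Set.univ y := by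
      intro y _
      exact ((hasDerivAt_id y).div_const 2).exp.hasDerivWithinAt
    have hinj : InjOn (fun y : ℝ => Real.exp (y / 2)) Set.univ := by
      intro x _ y _ hxy
      have := Real.exp_injective hxy
      linarith
    have h4 := lintegral_image_eq_lintegral_abs_deriv_mul MeasurableSet.univ hd hinj
      (fun r : ℝ => ENNReal.ofReal r * ENNReal.ofReal (‖ψ (r : ℂ)‖ ^ p))
    rw [PO_image, setLIntegral_univ] at h4
    rw [h4]
    refine lintegral_congr (fun y => ?_)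
    have e1 : 0 < Real.exp (y / 2) := Real.exp_pos _
    have e2 : 0 ≤ ‖prof ψ y‖ ^ p := Real.rpow_nonneg (norm_nonneg _) p
    have e3 : ‖ψ ((Real.exp (y / 2) : ℝ) : ℂ)‖ = ‖prof ψ y‖ := rfl
    rw [e3, abs_of_pos (by positivity), ← ENNReal.ofReal_mul e1.le,
      ← ENNReal.ofReal_mul (by positivity), ← ENNReal.ofReal_mul (by norm_num)]
    congr 1
    have e4 : Real.exp y = Real.exp (y / 2) * Real.exp (y / 2) := by
      rw [← Real.exp_add]; congr 1; ring
    rw [e4]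
    ring
  rw [h1, h2, h3]
  rw [lintegral_const_mul']
  · rw [← mul_assoc, ← ENNReal.ofReal_mul (by positivity)]
    congr 2
    ring
  · exact ENNReal.ofReal_ne_top

end Pool.Agent.Helper68.BA
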