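import Pool.Agent.Helper45.BAM.WI

/-! Module VA (order of vanishing at the origin), MP_3dd6d4_an, modes. -/

set_option autoImplicit false

noncomputable section

namespace Pool.Agent.Helper68.BA

open MeasureTheory Set Filter Topology Complex
open scoped ContDiff

theorem VA_bdd {φ : ℂ → ℂ} (hc : Continuous φ) : ∃ M : ℝ, 0 ≤ M ∧ ∀ y : ℝ, y ≤ 0 →
    ‖prof φ y‖ ≤ M := by
  obtain ⟨M, hM⟩ := (isCompact_closedBall (0 : ℂ) 1).exists_bound_of_continuousOn
    hc.continuousOn
  refine ⟨M, ?_, ?_⟩
  · exact (norm_nonneg _).trans (hM 0 (by simp))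
  · intro y hy
    refine hM _ ?_
    rw [mem_closedBall_zero_iff, Complex.norm_real, Real.norm_eq_abs, abs_of_pos (Real.exp_pos _)]
    rw [Real.exp_le_one_iff]
    linarith

theorem VA_step (m : ℕ) (P D : ℝ → ℂ)
    (hP : ∀ y : ℝ, HasDerivAt P ((Real.exp (y / 2) : ℂ) * D y - (((m : ℝ) + 1) / 2 : ℝ) * P y) y)
    (hD : ∃ C : ℝ, ∀ y : ℝ, y ≤ 0 → ‖D y‖ ≤ C * Real.exp (m * y / 2))
    (hM : ∃ M : ℝ, 0 ≤ M ∧ ∀ y : ℝ, y ≤ 0 → ‖P y‖ ≤ M) :
    ∃ C : ℝ, ∀ y : ℝ, y ≤ 0 → ‖P y‖ ≤ C * Real.exp (((m : ℝ) + 1) * y / 2) := by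
  obtain ⟨C, hC⟩ := hD
  obtain ⟨M, hM0, hM⟩ := hM
  set c : ℝ := (m : ℝ) + 1 with hc
  have hc0 : 0 < c := by positivity
  have hC0 : 0 ≤ C := by
    have := (norm_nonneg _).trans (hC 0 le_rfl)
    simpa using this
  refine ⟨C / c, ?_⟩
  intro y hy
  -- the auxiliary function
  let g : ℝ → ℂ := fun x => (Real.exp (c * x / 2) : ℂ) * P x
  have hg : ∀ x, HasDerivAt g ((Real.exp (c * x / 2) : ℂ) * ((Real.exp (x / 2) : ℂ) * D x)) x := by
    intro x
    have h1 : HasDerivAt (fun x : ℝ => c * x / 2) (c / 2) x := by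
      have := ((hasDerivAt_id x).const_mul c).div_const 2
      simpa using this
    have h2 : HasDerivAt (fun x : ℝ => (Real.exp (c * x / 2) : ℂ))
        ((Real.exp (c * x / 2) * (c / 2) : ℝ) : ℂ) x := h1.exp.ofReal_comp
    have h3 := h2.mul (hP x)
    refine h3.congr_deriv ?_
    push_cast
    ring
  have hbd : ∀ x, x ≤ 0 →
      ‖(Real.exp (c * x / 2) : ℂ) * ((Real.exp (x / 2) : ℂ) * D x)‖ ≤ C * Real.exp (c * x) := by
    intro x hx
    rw [norm_mul, norm_mul, Complex.norm_real, Complex.norm_real, Real.norm_eq_abs,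
      Real.norm_eq_abs, abs_of_pos (Real.exp_pos _), abs_of_pos (Real.exp_pos _)]
    have h1 := hC x hx
    have h2 : Real.exp (c * x / 2) * (Real.exp (x / 2) * ‖D x‖) ≤
        Real.exp (c * x / 2) * (Real.exp (x / 2) * (C * Real.exp (m * x / 2))) := by
      gcongr
    refine h2.trans (le_of_eq ?_)
    have h3 : Real.exp (c * x) = Real.exp (c * x / 2) * (Real.exp (x / 2) *
        Real.exp (m * x / 2)) := by
      rw [← Real.exp_add, ← Real.exp_add]
      congr 1
      rw [hc]
      ring
    rw [h3]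
    ring
  -- comparison on `[a, y]`
  have hcomp : ∀ a, a ≤ y → ‖g y - g a‖ ≤ C / c * Real.exp (c * y) := by
    intro a ha
    have hB : ∀ x : ℝ, HasDerivAt (fun x : ℝ => C / c * (Real.exp (c * x) - Real.exp (c * a)))
        (C * Real.exp (c * x)) x := by
      intro x
      have h1 : HasDerivAt (fun x : ℝ => c * x) c x := by
        simpa using (hasDerivAt_id x).const_mul c
      have h2 := (h1.exp.sub_const (Real.exp (c * a))).const_mul (C / c)
      refine h2.congr_deriv ?_
      field_simp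
    have h1 := image_norm_le_of_norm_deriv_right_le_deriv_boundary
      (f := fun x => g x - g a) (a := a) (b := y)
      (f' := fun x => (Real.exp (c * x / 2) : ℂ) * ((Real.exp (x / 2) : ℂ) * D x))
      (B := fun x : ℝ => C / c * (Real.exp (c * x) - Real.exp (c * a)))
      (B' := fun x => C * Real.exp (c * x))
      (by
        intro x _
        exact ((hg x).continuousAt.sub continuousAt_const).continuousWithinAt)
      (by
        intro x _
        exact ((hg x).sub_const (g a)).hasDerivWithinAt)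
      (by simp)
      (by
        intro x
        exact hB x)
      (by
        intro x hx
        exact hbd x (hx.2.le.trans hy))
      (right_mem_Icc.2 ha)
    refine h1.trans ?_
    have h2 : 0 ≤ C / c := div_nonneg hC0 hc0.le
    have h3 : 0 ≤ C / c * Real.exp (c * a) := mul_nonneg h2 (Real.exp_pos _).le
    show C / c * (Real.exp (c * y) - Real.exp (c * a)) ≤ _
    rw [mul_sub]
    linarith
  -- limit `a → -∞`
  have hlim : Tendsto g atBot (𝓝 0) := by
    rw [tendsto_zero_iff_norm_tendsto_zero]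
    have h1 : Tendsto (fun x : ℝ => Real.exp (c * x / 2) * M) atBot (𝓝 0) := by
      have h2 : Tendsto (fun x : ℝ => c * x / 2) atBot atBot := by
        have : (fun x : ℝ => c * x / 2) = fun x => (c / 2) * x := by funext x; ring
        rw [this]
        exact tendsto_id.const_mul_atBot (by positivity)
      have h3 := (Real.tendsto_exp_atBot.comp h2).mul_const M
      simpa using h3
    refine tendsto_of_tendsto_of_tendsto_of_le_of_le' tendsto_const_nhds h1 ?_ ?_
    · exact Eventually.of_forall (fun x => norm_nonneg _)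
    · filter_upwards [eventually_le_atBot (0 : ℝ)] with x hx
      show ‖(Real.exp (c * x / 2) : ℂ) * P x‖ ≤ _
      rw [norm_mul, Complex.norm_real, Real.norm_eq_abs, abs_of_pos (Real.exp_pos _)]
      exact mul_le_mul_of_nonneg_left (hM x hx) (Real.exp_pos _).le
  have hgy : ‖g y‖ ≤ C / c * Real.exp (c * y) := by
    have h1 : Tendsto (fun a => ‖g y - g a‖) atBot (𝓝 ‖g y - 0‖) :=
      (tendsto_const_nhds.sub hlim).norm
    rw [sub_zero] at h1
    refine le_of_tendsto h1 ?_
    filter_upwards [eventually_le_atBot y] with a ha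
    exact hcomp a ha
  -- conclusion
  have h1 : ‖g y‖ = Real.exp (c * y / 2) * ‖P y‖ := by
    show ‖(Real.exp (c * y / 2) : ℂ) * P y‖ = _
    rw [norm_mul, Complex.norm_real, Real.norm_eq_abs, abs_of_pos (Real.exp_pos _)]
  rw [h1] at hgy
  have h2 : Real.exp (c * y) = Real.exp (c * y / 2) * Real.exp (c * y / 2) := by
    rw [← Real.exp_add]; congr 1; ring
  rw [h2] at hgy
  have h3 : 0 < Real.exp (c * y / 2) := Real.exp_pos _
  have h4 : Real.exp (c * y / 2) * ‖P y‖ ≤
      Real.exp (c * y / 2) * (C / c * Real.exp (c * y / 2)) := by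
    calc _ ≤ _ := hgy
      _ = _ := by ring
  exact le_of_mul_le_mul_left h4 h3

theorem prof_vanish {k : ℤ} {φ : ℂ → ℂ} (h : HasMode k φ) (hd : ContDiff ℝ ∞ φ) :
    ∃ C : ℝ, ∀ y : ℝ, y ≤ 0 → ‖prof φ y‖ ≤ C * Real.exp (|(k : ℝ)| * y / 2) := by
  have key : ∀ m : ℕ, ∀ (k : ℤ) (φ : ℂ → ℂ), k.natAbs = m → HasMode k φ → ContDiff ℝ ∞ φ →
      ∃ C : ℝ, ∀ y : ℝ, y ≤ 0 → ‖prof φ y‖ ≤ C * Real.exp ((m : ℝ) * y / 2) := by
    intro m
    induction m with
    | zero =>
      intro k φ _ _ hd
      obtain ⟨M, -, hM⟩ := VA_bdd hd.continuous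
      exact ⟨M, fun y hy => by simpa using hM y hy⟩
    | succ m ih =>
      intro k φ hk h hd
      rcases lt_trichotomy k 0 with hneg | h0 | hpos
      · have hk' : (k : ℂ) = -((m : ℂ) + 1) := by
          have h1 : k = -((m : ℤ) + 1) := by omega
          rw [h1]; push_cast; ring
        have h1 := VA_step m (prof φ) (prof (BA.dzbar φ))
          (by
            intro y
            have h2 := prof_hasDerivAt_dzbar h hd y
            convert h2 using 1
            rw [hk']
            push_cast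
            ring)
          (ih (k + 1) (BA.dzbar φ) (by omega) (hasMode_dzbar h hd) (dzbar_contDiff φ hd))
          (VA_bdd hd.continuous)
        obtain ⟨C, hC⟩ := h1
        exact ⟨C, fun y hy => by simpa using hC y hy⟩
      · omega
      · have hk' : (k : ℂ) = (m : ℂ) + 1 := by
          have h1 : k = (m : ℤ) + 1 := by omega
          rw [h1]; push_cast; ring
        have h1 := VA_step m (prof φ) (prof (BA.dz φ))
          (by
            intro y
            have h2 := prof_hasDerivAt_dz h hd y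
            convert h2 using 1
            rw [hk']
            push_cast
            ring)
          (ih (k - 1) (BA.dz φ) (by omega) (hasMode_dz h hd) (dz_contDiff φ hd))
          (VA_bdd hd.continuous)
        obtain ⟨C, hC⟩ := h1
        exact ⟨C, fun y hy => by simpa using hC y hy⟩
  obtain ⟨C, hC⟩ := key k.natAbs k φ rfl h hd
  refine ⟨C, ?_⟩
  intro y hy
  have h1 := hC y hy
  have h2 : ((k.natAbs : ℕ) : ℝ) = |(k : ℝ)| := by
    rw [Nat.cast_natAbs, Int.cast_abs]
  rwa [h2] at h1

end Pool.Agent.Helper68.BA
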